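import Mathlib
import Pool.Agent.R37.BlockingCut

set_option autoImplicit false
set_option linter.unusedSectionVars false

/-!
Graphs of maximum degree three have 5-blocking partitions of bounded width.
-/

namespace Pool.Agent.Results.MP_cb714e_co.BlockingCubic

open Finset Pool.Agent.R37

/-- The partition of the vertex set of `G` into the classes of `R` is connected: every class
induces a connected subgraph. -/
def IsConnectedPartition {V : Type} (G : SimpleGraph V) (R : Setoid V) : Prop :=
  ∀ v, (G.induce {w | R v w}).Connected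

/-- Every class of the partition has at most `c` elements. -/
def WidthLE {V : Type} (R : Setoid V) (c : ℕ) : Prop := ∀ v, {w | R v w}.ncard ≤ c

/-- Every path of `G` with at most one vertex in each class has length at most `l`. -/
def IsBlocking {V : Type} (G : SimpleGraph V) (R : Setoid V) (l : ℕ) : Prop :=
  ∀ (u v : V) (p : G.Walk u v), p.IsPath → (∀ x ∈ p.support, ∀ y ∈ p.support, R x y → x = y) →
    p.length ≤ l

theorem exists_blocking (V : Type) [Fintype V] (G : SimpleGraph V)
    (hdeg : ∀ v, (G.neighborSet v).ncard ≤ 3) :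
    ∃ R : Setoid V, IsConnectedPartition G R ∧ WidthLE R 5382 ∧ IsBlocking G R 5 := by
  classical
  have hG : Deg3 G := by
    intro v a b c d ha hb hc hd
    by_contra hcon
    push Not at hcon
    obtain ⟨h1, h2, h3, h4, h5, h6⟩ := hcon
    have hsub : (({a, b, c, d} : Finset V) : Set V) ⊆ G.neighborSet v := by
      intro w hw
      simp only [Finset.coe_insert, Finset.coe_singleton, Set.mem_insert_iff,
        Set.mem_singleton_iff] at hw
      rcases hw with rfl | rfl | rfl | rfl
      · exact ha
      · exact hb
      · exact hc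
      · exact hd
    have h7 := Set.ncard_le_ncard hsub (Set.toFinite _)
    rw [Set.ncard_coe_finset] at h7
    have h8 : ({a, b, c, d} : Finset V).card = 4 :=
      Finset.card_eq_four.2 ⟨a, b, c, d, h1, h2, h3, h4, h5, h6, rfl⟩
    have := hdeg v
    omega
  obtain ⟨J, hJG, hJ2, hmax⟩ := exists_max_J G
  obtain ⟨γ, C, L, u, pos, hl⟩ := exists_listing hJ2
  obtain ⟨ω, hω⟩ := exists_transversal (T := V) (q := Q) (D := 24) (by omega)
    (by show 16 * 24 ≤ 384; norm_num) (Cf G C L u pos)
    (by
      rintro a b ⟨h1, h2, z, z', hz, hz', hn⟩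
      exact ⟨h2, h1, z', z, hz', hz, hn.symm⟩)
    (fun a => by
      have := card_cf_le hG hl a
      convert this)
  have hs : ∀ a b, CutRel C L u pos ω a b → CutRel C L u pos ω b a := by
    rintro a b ⟨h, hh, h1 | h1⟩
    · exact ⟨h, hh, Or.inr ⟨h1.2, h1.1⟩⟩
    · exact ⟨h, hh, Or.inl ⟨h1.2, h1.1⟩⟩
  obtain ⟨J', hJ'⟩ : ∃ J', J' = pieces J (CutRel C L u pos ω) hs := ⟨_, rfl⟩
  have hJ'G : J' ≤ G := by
    intro a b hab
    rw [hJ'] at hab
    exact hJG hab.1
  have hreach : ∀ v w, J'.reachableSetoid v w ↔ J'.Reachable v w := fun _ _ => Iff.rfl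
  refine ⟨J'.reachableSetoid, ?_, ?_, ?_⟩
  · intro v
    have key : ∀ (a b : V) (q : J'.Walk a b) (ha : J'.Reachable v a) (hb : J'.Reachable v b),
        (G.induce {w | J'.Reachable v w}).Reachable ⟨a, ha⟩ ⟨b, hb⟩ := by
      intro a b q
      induction q with
      | nil => intro ha hb; exact SimpleGraph.Reachable.refl _
      | @cons a d b had q ih =>
        intro ha hb
        have hd : J'.Reachable v d := ha.trans had.reachable
        refine SimpleGraph.Reachable.trans (SimpleGraph.Adj.reachable ?_) (ih hd hb)
        exact hJ'G had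
    have hne : Nonempty {w | J'.Reachable v w} := ⟨⟨v, SimpleGraph.Reachable.refl v⟩⟩
    refine SimpleGraph.Connected.mk ?_
    rintro ⟨a, ha⟩ ⟨b, hb⟩
    obtain ⟨q⟩ : J'.Reachable a b := (SimpleGraph.Reachable.symm ha).trans hb
    exact key a b q ha hb
  · intro v
    have h1 := piece_card (ω := ω) hl hs v
    rw [← hJ'] at h1
    exact h1
  · have hcut : CutData G J (CutRel C L u pos ω) (fun a b => J'.reachableSetoid a b) := by
      apply cutData hJG hG hl hmax hω
      intro a b hab hn
      rw [hJ']
      exact SimpleGraph.Adj.reachable (G := pieces J (CutRel C L u pos ω) hs) ⟨hab, hn⟩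
    intro a b p hp hclean
    by_contra hlen
    push Not at hlen
    apply hcut.no_seven (fun i => p.getVert i)
    · intro i hi
      exact p.adj_getVert_succ (by omega)
    · intro i hi j hj hij
      have hne : p.getVert i ≠ p.getVert j := by
        intro h
        exact hij (hp.getVert_injOn (by simp only [Set.mem_ofPred_eq]; omega)
          (by simp only [Set.mem_ofPred_eq]; omega) h)
      refine ⟨hne, fun hR => hne ?_⟩
      exact hclean _ (p.getVert_mem_support i) _ (p.getVert_mem_support j) hR

/-- There are `l, c ≥ 1` such that every finite graph of maximum degree at most three has an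
`l`-blocking partition of width at most `c`; `l = 5` works. -/
theorem result : ∃ l c : ℕ, 1 ≤ l ∧ l ≤ 5 ∧ 1 ≤ c ∧ ∀ (V : Type) [Fintype V] (G : SimpleGraph V),
    (∀ v, (G.neighborSet v).ncard ≤ 3) →
    ∃ R : Setoid V, IsConnectedPartition G R ∧ WidthLE R c ∧ IsBlocking G R l :=
  ⟨5, 5382, by norm_num, le_rfl, by norm_num, fun V _ G h => exists_blocking V G h⟩

end Pool.Agent.Results.MP_cb714e_co.BlockingCubic
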